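import Pool.Agent.H.MP_b91784_pr.A

/-! The strong law fails for random convex sets with a compact common mean. -/

open MeasureTheory ProbabilityTheory Set Metric
open scoped Pointwise BoundedContinuousFunction

namespace Pool.Agent.Results.MP_3b082f_pr.Compact

variable {X : Type} [NormedAddCommGroup X] [NormedSpace ℝ X]

/-- B-convexity: the spaces `ℓ₁ⁿ` are not contained uniformly -/
def BConvex (X : Type) [NormedAddCommGroup X] [NormedSpace ℝ X] : Prop :=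
  ∃ n : ℕ, ∃ ε > (0 : ℝ), ¬ ∃ (x : Fin n → X) (c : ℝ), 0 < c ∧ ∀ a : Fin n → ℝ,
    c * ∑ i, |a i| ≤ ‖∑ i, a i • x i‖ ∧ ‖∑ i, a i • x i‖ ≤ (1 + ε) * c * ∑ i, |a i|

/-- `z` is the support function of `A` on the dual unit sphere -/
def Rep (A : Set X) (z : sphere (0 : StrongDual ℝ X) 1 →ᵇ ℝ) : Prop :=
  ∀ f : sphere (0 : StrongDual ℝ X) 1, IsLUB (f.1 '' A) (z f)

/-- independent random convex subsets of the unit ball with common expectation `U` -/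
def Sq {Ω : Type} [MeasurableSpace Ω] (P : Measure Ω) (U : Set X) (Ψ : ℕ → Ω → Set X) : Prop :=
  (U.Nonempty ∧ Convex ℝ U ∧ Bornology.IsBounded U) ∧
  (∀ n ω, (Ψ n ω).Nonempty ∧ Convex ℝ (Ψ n ω) ∧ Ψ n ω ⊆ closedBall 0 1) ∧
  ∃ (r : sphere (0 : StrongDual ℝ X) 1 →ᵇ ℝ) (R : ℕ → Ω → sphere (0 : StrongDual ℝ X) 1 →ᵇ ℝ),
    Rep U r ∧ (∀ n ω, Rep (Ψ n ω) (R n ω)) ∧
    (∀ n, @Measurable _ _ _ (borel _) (R n) ∧ StronglyMeasurable (R n) ∧ Integrable (R n) P ∧ ∫ ω, R n ω ∂P = r) ∧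
    iIndepFun (m := fun _ => borel _) R P

theorem result : ∃ (X : Type) (_ : NormedAddCommGroup X) (_ : NormedSpace ℝ X), CompleteSpace X ∧ BConvex X ∧
    ∃ (Ω : Type) (_ : MeasurableSpace Ω) (P : Measure Ω) (_ : IsProbabilityMeasure P)
      (U : Set X) (Ψ : ℕ → Ω → Set X), Sq P U Ψ ∧ IsCompact U ∧ ∀ ω (n : ℕ), 1 ≤ n →
        ENNReal.ofReal (1 / 8) ≤ hausdorffEDist ((n : ℝ)⁻¹ • ∑ i ∈ Finset.range n, Ψ i ω) U :=
  ⟨Pool.Agent.H.MP_b91784_pr.E, inferInstance, inferInstance, inferInstance, Pool.Agent.H.MP_b91784_pr.nl,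
    Pool.Agent.H.MP_b91784_pr.haus⟩

end Pool.Agent.Results.MP_3b082f_pr.Compact
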